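import Pool.Agent.helper7.DF.Spec

set_option autoImplicit false

open Finset

namespace Pool.Agent.DFO

open Pool.Agent.LDH (ee)

theorem TID_norm (x : ℝ) : ‖ee x‖ = 1 := by
  unfold Pool.Agent.LDH.ee
  exact Complex.norm_exp_ofReal_mul_I _

theorem TID_triv (a b : ℕ) (f : ℕ → ℝ) (B : ℝ) (hB : ((b - a : ℕ) : ℝ) ≤ B) :
    ‖∑ l ∈ Ioc a b, ee (f l)‖ ≤ B := by
  refine (norm_sum_le _ _).trans ?_
  simp only [TID_norm, sum_const, Nat.card_Ioc, nsmul_eq_mul, mul_one]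
  exact hB

theorem TID (hKSM : KSM_stmt) : TID_stmt := by
  intro A
  obtain ⟨δ, C, hδ0, hδ1, hC1, hK⟩ := hKSM (8 * A)
  refine ⟨δ / 4, C + 16, by linarith, by linarith, by linarith, ?_⟩
  intro k d a b x hd hdk hab hbk hka hkx hxk
  have hd0 : (0 : ℝ) < d := by exact_mod_cast hd
  have hd1 : (1 : ℝ) ≤ d := by exact_mod_cast hd
  have hk1 : 1 ≤ k := by
    by_contra h
    have hk0 : k = 0 := by omega
    rw [hk0] at hdk
    rw [Nat.cast_zero, Real.zero_rpow (by norm_num)] at hdk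
    linarith
  have hk0 : (0 : ℝ) < k := by exact_mod_cast hk1
  have hk1' : (1 : ℝ) ≤ k := by exact_mod_cast hk1
  have hx0 : 0 < x := hk0.trans_le hkx
  -- k / d is large
  have hkd : (k : ℝ) ^ (1 / 4 : ℝ) ≤ k / d := by
    rw [le_div_iff₀ hd0]
    calc (k : ℝ) ^ (1 / 4 : ℝ) * d ≤ (k : ℝ) ^ (1 / 4 : ℝ) * (k : ℝ) ^ (3 / 4 : ℝ) := by gcongr
      _ = k := by
        rw [← Real.rpow_add hk0]
        norm_num
  have hkd0 : (0 : ℝ) < k / d := by positivity
  have hpow0 : (0 : ℝ) < (k : ℝ) ^ (-(δ / 4)) := by positivity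
  have hkx0 : (0 : ℝ) < k / x := by positivity
  have hbd : (b / d : ℕ) ≤ (k : ℝ) / d := by
    calc ((b / d : ℕ) : ℝ) ≤ (b : ℝ) / d := Nat.cast_div_le
      _ ≤ (k : ℝ) / d := by
        gcongr
  by_cases hbig : k < 65536
  · -- trivial bound
    have h1 : ‖∑ l ∈ Ioc (a / d) (b / d), ee (x / (d * l))‖ ≤ (k : ℝ) / d := by
      refine TID_triv _ _ _ _ ?_
      refine le_trans ?_ hbd
      exact_mod_cast Nat.sub_le _ _
    have h2 : (1 : ℝ) ≤ 16 * (k : ℝ) ^ (-(δ / 4)) := by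
      have h3 : (k : ℝ) ^ (δ / 4) ≤ 16 := by
        calc (k : ℝ) ^ (δ / 4) ≤ (k : ℝ) ^ (1 / 4 : ℝ) :=
              Real.rpow_le_rpow_of_exponent_le hk1' (by linarith)
          _ ≤ (65536 : ℝ) ^ (1 / 4 : ℝ) := by
              apply Real.rpow_le_rpow hk0.le _ (by norm_num)
              exact_mod_cast hbig.le
          _ = 16 := by
              rw [show (65536 : ℝ) = 16 ^ (4 : ℝ) by norm_num, ← Real.rpow_mul (by norm_num)]
              norm_num
      rw [Real.rpow_neg hk0.le]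
      have h4 : (0 : ℝ) < (k : ℝ) ^ (δ / 4) := by positivity
      rw [← div_eq_mul_inv, le_div_iff₀ h4]
      linarith
    refine h1.trans ?_
    have h5 : (k : ℝ) / d ≤ (k / d) * (16 * (k : ℝ) ^ (-(δ / 4))) := le_mul_of_one_le_right hkd0.le h2
    refine h5.trans ?_
    have h6 : (k : ℝ) / d * (16 * (k : ℝ) ^ (-(δ / 4))) = 16 * (k / d) * (k : ℝ) ^ (-(δ / 4)) := by ring
    rw [h6]
    have h7 : (0 : ℝ) ≤ C := by linarith
    have h8 : (16 : ℝ) * (k / d) ≤ (C + 16) * (k / d) := by nlinarith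
    have h9 : (k : ℝ) ^ (-(δ / 4)) ≤ k / x + (k : ℝ) ^ (-(δ / 4)) := by linarith
    exact mul_le_mul h8 h9 hpow0.le (by positivity)
  · push Not at hbig
    -- t = k ^ (1/8) ≥ 4
    have ht4 : (4 : ℝ) ≤ (k : ℝ) ^ (1 / 8 : ℝ) := by
      have h1 : (4 : ℝ) = (65536 : ℝ) ^ (1 / 8 : ℝ) := by
        rw [show (65536 : ℝ) = 4 ^ (8 : ℝ) by norm_num, ← Real.rpow_mul (by norm_num)]
        norm_num
      rw [h1]
      apply Real.rpow_le_rpow (by norm_num) _ (by norm_num)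
      exact_mod_cast hbig
    have ht2 : ((k : ℝ) ^ (1 / 8 : ℝ)) ^ 2 = (k : ℝ) ^ (1 / 4 : ℝ) := by
      rw [← Real.rpow_natCast, ← Real.rpow_mul hk0.le]
      norm_num
    have ht8 : ((k : ℝ) ^ (1 / 8 : ℝ)) ^ 8 = k := by
      rw [← Real.rpow_natCast, ← Real.rpow_mul hk0.le]
      norm_num
    -- N
    have hNlow : (k : ℝ) / (2 * d) - 1 ≤ ((a / d : ℕ) : ℝ) := by
      have h1 : (a : ℝ) / d < ((a / d : ℕ) : ℝ) + 1 := by
        rw [div_lt_iff₀ hd0]
        have h2 : a < d * (a / d + 1) := Nat.lt_mul_div_succ a hd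
        have h3 : (a : ℝ) < d * (((a / d : ℕ) : ℝ) + 1) := by exact_mod_cast h2
        linarith
      have h4 : (k : ℝ) ≤ 2 * a := by exact_mod_cast hka
      have h5 : (k : ℝ) / (2 * d) ≤ (a : ℝ) / d := by
        rw [div_le_div_iff₀ (by positivity) hd0]
        nlinarith
      linarith
    have hNt : (k : ℝ) ^ (1 / 8 : ℝ) ≤ ((a / d : ℕ) : ℝ) := by
      have h1 : (k : ℝ) / (2 * d) = (k / d) / 2 := by
        field_simp
      nlinarith
    have hN1 : 1 ≤ a / d := by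
      have : (1 : ℝ) ≤ ((a / d : ℕ) : ℝ) := by linarith
      exact_mod_cast this
    have hNle : ((a / d : ℕ) : ℝ) ≤ k / d := by
      refine le_trans ?_ hbd
      exact_mod_cast Nat.div_le_div_right hab
    have hN0 : (0 : ℝ) < ((a / d : ℕ) : ℝ) := by linarith
    have hb2 : b / d ≤ 2 * (a / d) + 1 := by
      have h1 : b ≤ 2 * a := hbk.trans hka
      have h2 : b / d ≤ (2 * a) / d := Nat.div_le_div_right h1
      have h3 : a < d * (a / d + 1) := Nat.lt_mul_div_succ a hd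
      have h4 : (2 * a) / d < 2 * (a / d + 1) := by
        rw [Nat.div_lt_iff_lt_mul hd]
        nlinarith
      omega
    have hab' : a / d ≤ b / d := Nat.div_le_div_right hab
    -- the main part
    set N := a / d with hN
    set m := min (b / d) (2 * N) with hm
    have hmN : N ≤ m := by
      rw [hm]
      exact le_min hab' (by omega)
    have hm2 : m ≤ 2 * N := min_le_right _ _
    have hmb : m ≤ b / d := min_le_left _ _
    have hbm : b / d - m ≤ 1 := by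
      rw [hm]
      omega
    have hy1 : (N : ℝ) ≤ x / d := by
      refine hNle.trans ?_
      gcongr
    have hy2 : x / d ≤ (N : ℝ) ^ (8 * A) := by
      calc x / d ≤ x := div_le_self hx0.le hd1
        _ ≤ (k : ℝ) ^ A := hxk
        _ = (((k : ℝ) ^ (1 / 8 : ℝ)) ^ 8) ^ A := by rw [ht8]
        _ = ((k : ℝ) ^ (1 / 8 : ℝ)) ^ (8 * A) := by rw [pow_mul]
        _ ≤ (N : ℝ) ^ (8 * A) := by
          gcongr
    have hmain := hK N N m (x / d) hN1 le_rfl hmN hm2 hy1 hy2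
    have e1 : (N : ℝ) ^ 2 / (x / d) ≤ (k / d) * (k / x) := by
      have h1 : (N : ℝ) ^ 2 ≤ (k / d) ^ 2 := by gcongr
      calc (N : ℝ) ^ 2 / (x / d) ≤ (k / d) ^ 2 / (x / d) := by gcongr
        _ = (k / d) * (k / x) := by
          field_simp
    have e0 : ((k : ℝ) / d) ^ (-δ) ≤ (k : ℝ) ^ (-(δ / 4)) := by
      calc ((k : ℝ) / d) ^ (-δ) ≤ ((k : ℝ) ^ (1 / 4 : ℝ)) ^ (-δ) := by
            apply Real.rpow_le_rpow_of_nonpos (by positivity) hkd (by linarith)
        _ = (k : ℝ) ^ (-(δ / 4)) := by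
            rw [← Real.rpow_mul hk0.le]
            ring_nf
    have e2 : (N : ℝ) ^ (1 - δ) ≤ (k / d) * (k : ℝ) ^ (-(δ / 4)) := by
      calc (N : ℝ) ^ (1 - δ) ≤ (k / d : ℝ) ^ (1 - δ) :=
            Real.rpow_le_rpow hN0.le hNle (by linarith)
        _ = (k / d) * (k / d : ℝ) ^ (-δ) := by
            rw [sub_eq_add_neg, Real.rpow_add hkd0, Real.rpow_one]
        _ ≤ (k / d) * (k : ℝ) ^ (-(δ / 4)) := by gcongr
    have e3 : (1 : ℝ) ≤ (k / d) * (k : ℝ) ^ (-(δ / 4)) := by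
      calc (1 : ℝ) = (k : ℝ) ^ (1 / 4 : ℝ) * (k : ℝ) ^ (-(1 / 4) : ℝ) := by
            rw [← Real.rpow_add hk0]
            norm_num
        _ ≤ (k / d) * (k : ℝ) ^ (-(δ / 4)) := by
            apply mul_le_mul hkd _ (by positivity) hkd0.le
            apply Real.rpow_le_rpow_of_exponent_le hk1'
            linarith
    have hsplit : ∑ l ∈ Ioc N (b / d), ee (x / (d * l)) =
        ∑ l ∈ Ioc N m, ee (x / d / l) + ∑ l ∈ Ioc m (b / d), ee (x / (d * l)) := by
      rw [← Finset.sum_Ioc_consecutive _ hmN hmb]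
      congr 1
      refine Finset.sum_congr rfl fun l _ => ?_
      rw [div_div]
    have hextra : ‖∑ l ∈ Ioc m (b / d), ee (x / (d * l))‖ ≤ 1 := by
      refine TID_triv _ _ _ _ ?_
      exact_mod_cast hbm
    have hC0 : (0 : ℝ) ≤ C := by linarith
    calc ‖∑ l ∈ Ioc N (b / d), ee (x / (d * l))‖
        ≤ ‖∑ l ∈ Ioc N m, ee (x / d / l)‖ + ‖∑ l ∈ Ioc m (b / d), ee (x / (d * l))‖ := by
          rw [hsplit]
          exact norm_add_le _ _
      _ ≤ C * ((N : ℝ) ^ 2 / (x / d) + (N : ℝ) ^ (1 - δ)) + 1 := add_le_add hmain hextra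
      _ ≤ C * ((k / d) * (k / x) + (k / d) * (k : ℝ) ^ (-(δ / 4))) + (k / d) * (k : ℝ) ^ (-(δ / 4)) := by
          gcongr
      _ ≤ (C + 16) * (k / d) * (k / x + (k : ℝ) ^ (-(δ / 4))) := by
          have p1 : 0 ≤ (k / d : ℝ) * (k / x) := by positivity
          have p2 : 0 ≤ (k / d : ℝ) * (k : ℝ) ^ (-(δ / 4)) := by positivity
          nlinarith

end Pool.Agent.DFO
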